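import Pool.Agent.Work.MP_1a422c_an.Final
import Pool.Agent.Work.MP_1a422c_an.FiniteLp

/-!
# Extended unconditional bases of non-separable `L^p` spaces

For every set `I` of cardinality `ℵ₁` and every `1 < p < ∞` the space `L^p` of the product of
fair coins on `{false, true}^I` (a probability space; the `L^p` space is non-separable, of density
character exactly `ℵ₁`) has an extended unconditional basis. This refutes the assertion that no
non-separable `L^p` space (`p ≠ 2`) of a finite measure has an extended unconditional basis.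
-/

open MeasureTheory
open scoped ENNReal

namespace Pool.Agent.Results.MP_1a422c_an.LpAlephOne

universe u

/-- The family `x` is an extended unconditional basis of the Banach space `E`: its closed linear
span is `E`, and every countable subfamily `(x i), i ∈ S`, is an unconditional basic sequence, that
is, every vector `y` of the closed linear span of the subfamily has exactly one expansion
`y = ∑ c i • x i` (`i ∈ S`) that converges unconditionally. The third field is the equivalent
finite sign inequality. -/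
structure IsExtendedUnconditionalBasis (𝕜 : Type*) {ι E : Type*} [RCLike 𝕜]
    [NormedAddCommGroup E] [NormedSpace 𝕜 E] (x : ι → E) : Prop where
  complete : closure (Submodule.span 𝕜 (Set.range x) : Set E) = Set.univ
  basic : ∀ S : Set ι, S.Countable → ∀ y ∈ closure (Submodule.span 𝕜 (x '' S) : Set E),
    ∃! c : S → 𝕜, HasSum (fun i : S => c i • x i) y
  sign_inequality : ∃ M : ℝ, ∀ (d : Finset ι) (a ε : ι → 𝕜), (∀ i, ε i = 1 ∨ ε i = -1) →
    ‖∑ i ∈ d, ε i • a i • x i‖ ≤ M * ‖∑ i ∈ d, a i • x i‖

/-- `m` is the density character of `E`: the least cardinality of a dense subset. -/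
def IsDensityCharacter (E : Type u) [TopologicalSpace E] (m : Cardinal.{u}) : Prop :=
  IsLeast {c : Cardinal.{u} | ∃ D : Set E, Dense D ∧ Cardinal.mk D = c} m

/-- The fair coin-tossing measure on `I → Bool`: the product over `I` of the uniform probability
measures on `Bool`. -/
noncomputable def coinMeasure (I : Type u) : Measure (I → Bool) :=
  Measure.infinitePi fun _ : I => (2 : ℝ≥0∞)⁻¹ • (Measure.count : Measure Bool)

theorem result (𝕜 : Type) [RCLike 𝕜] (p : ℝ≥0∞) [Fact (1 ≤ p)] (hp1 : 1 < p) (hp : p ≠ ⊤)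
    (I : Type u) (hI : Cardinal.mk I = Cardinal.aleph 1) :
    IsProbabilityMeasure (coinMeasure I) ∧
    ¬ TopologicalSpace.SeparableSpace (Lp 𝕜 p (coinMeasure I)) ∧
    IsDensityCharacter (Lp 𝕜 p (coinMeasure I)) (Cardinal.aleph 1) ∧
    ∃ (ι : Type u) (x : ι → Lp 𝕜 p (coinMeasure I)), IsExtendedUnconditionalBasis 𝕜 x := by
  have hmu : coinMeasure I = MP_1a422c_an.mu I := rfl
  rw [hmu]
  have hunc : Uncountable I := by
    rw [← Cardinal.aleph0_lt_mk_iff, hI]
    exact Cardinal.aleph0_lt_aleph_one
  have hp' : 1 < p.toReal := by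
    rw [← ENNReal.toReal_one]
    exact (ENNReal.toReal_lt_toReal ENNReal.one_ne_top hp).mpr hp1
  obtain ⟨C, hC, hfinite⟩ := MP_1a422c_an.finite_Lp.{u, 0} hp'
  have hq : MP_1a422c_an.FinIneq.{u, 0} p.toReal C := by
    intro ι _ _ Λ _ ρ hρ c0 c0' c c' φ φ' hφ hφ' h0 hc hh
    exact hfinite ρ hρ c0 c0' c c' φ φ' hφ hφ' h0 hc hh
  obtain ⟨ι, x, M, hx0, hx, hM, hι⟩ :=
    MP_1a422c_an.main_of_finIneq 𝕜 hp (zero_le_one.trans hC) hq I hI
  refine ⟨inferInstance, MP_1a422c_an.not_separable_Lp 𝕜 p,
    MP_1a422c_an.density_eq 𝕜 p I hI x hx hι, ι, x, ⟨hx, ?_, M, ?_⟩⟩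
  · intro S _ y hy
    exact hM.existsUnique_hasSum_subfamily hx0 S y hy
  · intro d a ε hε
    exact hM d a ε hε

end Pool.Agent.Results.MP_1a422c_an.LpAlephOne
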